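import Mathlib
import Pool.Agent.V11171.Sturm

/-!
# MP_9b64ae_co: `S^6 (u)` need not be rich for a Sturmian word `u`

For a slope slightly above `7/12` the word `S^6 (u)` begins with `1100101001101`, a word of length
`13` with only `13` palindromic factors (the empty word included).
-/

set_option autoImplicit false

open Pool.Agent.V11171.Rich Pool.Agent.V11171.Sturm

namespace Pool.Agent.Results.MP_9b64ae_co.SixthImageNotRich

/-- The operation `S`: the `n`-th letter of `S u` is `(u_n + u_{n+1}) mod 2`. -/
def S (u : ℕ → ℕ) : ℕ → ℕ := fun n => (u n + u (n + 1)) % 2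

theorem S_congr {u v : ℕ → ℕ} {N : ℕ} (h : ∀ n < N + 1, u n = v n) : ∀ n < N, S u n = S v n := by
  intro n hn
  simp only [S]
  rw [h n (by omega), h (n + 1) (by omega)]

theorem S_iter_congr (k : ℕ) : ∀ {u v : ℕ → ℕ} {N : ℕ}, (∀ n < N + k, u n = v n) →
    ∀ n < N, S^[k] u n = S^[k] v n := by
  induction k with
  | zero => intro u v N h n hn; simpa using h n (by omega)
  | succ k ih =>
    intro u v N h n hn
    rw [Function.iterate_succ, Function.comp, Function.comp]
    exact ih (N := N) (S_congr (fun m hm => h m (by omega))) n hn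

/-- the slope -/
noncomputable def α : ℝ := 7 / 12 + √2 / 1000

theorem α_lo : 7 / 12 < α := by
  have : 0 < √2 := by positivity
  unfold α; linarith

theorem α_hi : α < 10 / 17 := by
  have : √2 < 2 := by
    rw [Real.sqrt_lt' (by norm_num)]; norm_num
  unfold α; linarith

theorem α_irr : Irrational α := by
  have h := irrational_sqrt_two
  have h2 : Irrational (√2 / (1000 : ℕ)) := h.div_natCast (by norm_num)
  have h3 : Irrational (((7 / 12 : ℚ) : ℝ) + √2 / (1000 : ℕ)) := h2.ratCast_add _
  have : α = ((7 / 12 : ℚ) : ℝ) + √2 / (1000 : ℕ) := by unfold α; push_cast; norm_num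
  rw [this]; exact h3

/-- the periodic approximation -/
def v (m : ℕ) : ℕ := 7 * (m + 1) / 12 - 7 * m / 12

theorem floor_eq (m : ℕ) (hm : m < 20) : ⌊(m : ℝ) * α + 0⌋ = ((7 * m / 12 : ℕ) : ℤ) := by
  have h1 := α_lo
  have h2 := α_hi
  rw [Int.floor_eq_iff]
  interval_cases m <;> norm_num <;> constructor <;> linarith

theorem mech_eq (m : ℕ) (hm : m < 19) : mech α 0 m = v m := by
  have e1 := floor_eq m (by omega)
  have e2 := floor_eq (m + 1) (by omega)
  push_cast at e2
  rw [mech, e2, e1, v]
  omega

theorem not_rich_six : ¬ RichWord (factor (S^[6] (mech α 0)) 0 13) := by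
  have : factor (S^[6] (mech α 0)) 0 13 = factor (S^[6] v) 0 13 := by
    simp only [factor, List.map_inj_left, List.mem_range]
    intro j hj
    exact S_iter_congr 6 (N := 13) (fun n hn => mech_eq n (by omega)) (0 + j) (by omega)
  rw [this]
  exact not_rich _ (by decide +kernel)

/-- **MP_9b64ae_co, Q1 is false.** It is not true that `S^k (u)` is rich for every Sturmian word `u`
and every `k ≥ 1`; there is a Sturmian word `u` for which `S^6 (u)` is not rich. -/
theorem result : ¬ ∀ u : ℕ → ℕ, IsSturmian u → ∀ k : ℕ, 1 ≤ k → RichInf (S^[k] u) := by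
  intro h
  have h0 : (0 : ℝ) ≤ α := by linarith [α_lo]
  have h1 : α < 1 := by linarith [α_hi]
  exact not_rich_six (h (mech α 0) (isSturmian h0 h1 α_irr) 6 (by norm_num) 0 13)

end Pool.Agent.Results.MP_9b64ae_co.SixthImageNotRich
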